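import Pool.Agent.R470.VM.Core
import Pool.Agent.W346.PV.Newt
import Pool.Agent.W154.PV.PV_DISJ

set_option autoImplicit false

/-! Near-diagonal solutions of Vinogradov's system. -/

namespace Pool.Agent.R470.VM

open Finset

/-- a solution whose tuples differ in at most `k` places is diagonal -/
theorem newton_support {s k : ℕ} (x y : Fin s → ℕ)
    (h : ∀ j : Fin k, ∑ i : Fin s, x i ^ (j.val + 1) = ∑ i : Fin s, y i ^ (j.val + 1))
    (T : Finset (Fin s)) (hT : ∀ i, i ∉ T → x i = y i) (hc : T.card ≤ k) :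
    ∃ σ : Equiv.Perm (Fin s), y = x ∘ σ := by
  classical
  apply Pool.Agent.W154.PV.perm_of_PP
  have hd := Pool.Agent.W346.PV.Newt.main s k x y h
  unfold Pool.Agent.W154.PV.PP
  set A : Polynomial ℤ := ∏ i ∈ Tᶜ, (Polynomial.X - Polynomial.C (x i : ℤ)) with hA
  have ex : (∏ i, (Polynomial.X - Polynomial.C (x i : ℤ))) =
      A * ∏ i ∈ T, (Polynomial.X - Polynomial.C (x i : ℤ)) := by
    rw [hA, ← prod_compl_mul_prod T]
  have ey : (∏ i, (Polynomial.X - Polynomial.C (y i : ℤ))) =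
      A * ∏ i ∈ T, (Polynomial.X - Polynomial.C (y i : ℤ)) := by
    rw [hA, ← prod_compl_mul_prod T]
    congr 1
    refine prod_congr rfl fun i hi => ?_
    rw [hT i (mem_compl.1 hi)]
  rw [ex, ey] at hd ⊢
  rw [← mul_sub] at hd
  by_contra hne
  have hB : (∏ i ∈ T, (Polynomial.X - Polynomial.C (x i : ℤ))) -
      ∏ i ∈ T, (Polynomial.X - Polynomial.C (y i : ℤ)) ≠ 0 := by
    intro h0
    exact hne (by rw [sub_eq_zero.1 h0])
  rw [Polynomial.degree_mul, Polynomial.degree_eq_natDegree hB] at hd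
  have hAd : A.degree = ((s - T.card : ℕ) : WithBot ℕ) := by
    have hmon : A.Monic := Polynomial.monic_prod_of_monic _ _ fun i _ => Polynomial.monic_X_sub_C _
    rw [Polynomial.degree_eq_natDegree hmon.ne_zero, hA]
    rw [Polynomial.natDegree_finsetProd_X_sub_C_eq_card Tᶜ (fun i => (x i : ℤ)), card_compl,
      Fintype.card_fin]
  rw [hAd] at hd
  norm_cast at hd
  omega

open scoped Classical in
/-- near-diagonal solutions with support `T` -/
noncomputable def NT {s : ℕ} (n N H : ℕ) (T : Finset (Fin s)) : Finset ((Fin s → ℕ) × (Fin s → ℕ)) :=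
  ((Fintype.piFinset fun _ : Fin s => Icc 1 N) ×ˢ
    (Fintype.piFinset fun _ : Fin s => Icc 1 N)).filter fun p =>
    (∀ i, i ∉ T → p.1 i = p.2 i) ∧ (∀ i ∈ T, p.1 i ≠ p.2 i) ∧
    (∀ i, |(p.2 i : ℤ) - p.1 i| ≤ H) ∧ (∑ i, (p.2 i : ℤ) = ∑ i, (p.1 i : ℤ)) ∧
    ∀ j : Fin n, ∑ i, (p.2 i : ℤ) ^ (j.val + 2) = ∑ i, (p.1 i : ℤ) ^ (j.val + 2)

open scoped Classical in
theorem nt_count {s : ℕ} (n N H : ℕ) (hN : 1 ≤ N) (T : Finset (Fin s)) (i0 : Fin s) (hi0 : i0 ∈ T) :
    (NT n N H T).card ≤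
      (2 ^ s * (n ^ s * N ^ (n - 1) + (n * (n + 1) + 1) ^ n * N ^ (T.card - n))) *
        ((2 * H + 1) ^ (T.card - 1) * N ^ (s - T.card)) := by
  let g : (Fin s → ℕ) × (Fin s → ℕ) → (Fin s → ℤ) := fun p i =>
    if i = i0 then 0 else if i ∈ T then (p.2 i : ℤ) - p.1 i else (p.1 i : ℤ)
  have himg : ((NT n N H T).image g).card ≤ (2 * H + 1) ^ (T.card - 1) * N ^ (s - T.card) := by
    calc _ ≤ (Fintype.piFinset fun i : Fin s => if i = i0 then {0} else if i ∈ T then
          Icc (-(H : ℤ)) H else Icc (1 : ℤ) N).card := by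
          apply card_le_card
          intro v hv
          obtain ⟨p, hp, rfl⟩ := mem_image.1 hv
          rw [NT, mem_filter, mem_product, Fintype.mem_piFinset, Fintype.mem_piFinset] at hp
          rw [Fintype.mem_piFinset]
          intro i
          by_cases hi : i = i0
          · simp [g, hi]
          · by_cases hiT : i ∈ T
            · have := hp.2.2.2.1 i
              simp only [g, if_neg hi, if_pos hiT, mem_Icc]
              exact abs_le.1 this
            · have := hp.1.1 i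
              simp only [g, if_neg hi, if_neg hiT, mem_Icc] at this ⊢
              omega
      _ = (2 * H + 1) ^ (T.card - 1) * N ^ (s - T.card) := by
          rw [Fintype.card_piFinset]
          rw [← prod_mul_prod_compl T]
          congr 1
          · rw [← mul_prod_erase T _ hi0]
            rw [prod_congr rfl (g := fun _ => 2 * H + 1)]
            · rw [prod_const, card_erase_of_mem hi0]
              simp
            · intro i hi
              rw [mem_erase] at hi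
              simp only [if_neg hi.1, if_pos hi.2, Int.card_Icc]
              omega
          · rw [prod_congr rfl (g := fun _ => N)]
            · rw [prod_const, card_compl, Fintype.card_fin]
            · intro i hi
              rw [mem_compl] at hi
              have : i ≠ i0 := fun h => hi (h ▸ hi0)
              simp [this, hi]
  refine (card_le_mul_card_image (NT n N H T) _ ?_).trans (Nat.mul_le_mul_left _ himg)
  intro v hv
  obtain ⟨p0, hp0, hv0⟩ := mem_image.1 hv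
  have hp0' := hp0
  rw [NT, mem_filter] at hp0'
  let h : Fin s → ℤ := fun i => (p0.2 i : ℤ) - p0.1 i
  have hkey : ∀ p ∈ NT n N H T, g p = v → (∀ i, i ∉ T → p.1 i = p0.1 i) ∧
      ∀ i, (p.2 i : ℤ) = p.1 i + h i := by
    intro p hp hpv
    rw [NT, mem_filter] at hp
    have h1 : ∀ i, g p i = g p0 i := fun i => congrFun (hpv.trans hv0.symm) i
    have h2 : ∀ i, i ∉ T → p.1 i = p0.1 i := by
      intro i hi
      have h3 := h1 i
      have : i ≠ i0 := fun h => hi (h ▸ hi0)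
      simp only [g, if_neg this, if_neg hi] at h3
      exact_mod_cast h3
    have h4 : ∀ i, i ≠ i0 → (p.2 i : ℤ) = p.1 i + h i := by
      intro i hi
      by_cases hiT : i ∈ T
      · have h3 := h1 i
        simp only [g, if_neg hi, if_pos hiT] at h3
        simp only [h]
        linarith
      · have e1 := hp.2.1 i hiT
        have e2 := hp0'.2.1 i hiT
        simp only [h]
        rw [← e1, ← e2]
        ring
    refine ⟨h2, fun i => ?_⟩
    by_cases hi : i = i0
    · subst hi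
      have s1 : ∑ l, ((p.2 l : ℤ) - p.1 l - h l) = 0 := by
        simp only [h, sum_sub_distrib]
        rw [hp.2.2.2.2.1, hp0'.2.2.2.2.1]
        ring
      rw [← add_sum_erase univ _ (mem_univ i)] at s1
      rw [sum_eq_zero (s := univ.erase i)] at s1
      · linarith
      · intro l hl
        rw [h4 l (ne_of_mem_erase hl)]
        ring
    · exact h4 i hi
  have hinj : Set.InjOn Prod.fst (((NT n N H T).filter fun p => g p = v :
      Finset ((Fin s → ℕ) × (Fin s → ℕ))) : Set ((Fin s → ℕ) × (Fin s → ℕ))) := by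
    intro p hp q hq hpq
    rw [mem_coe, mem_filter] at hp hq
    have h1 := (hkey p hp.1 hp.2).2
    have h2 := (hkey q hq.1 hq.2).2
    refine Prod.ext hpq ?_
    funext i
    have h3 := h1 i
    rw [hpq, ← h2 i] at h3
    exact_mod_cast h3
  rw [← card_image_of_injOn hinj]
  refine le_trans (card_le_card ?_) (ss_count n N hN T h ?_ p0.1)
  · intro x hx
    obtain ⟨p, hp, rfl⟩ := mem_image.1 hx
    rw [mem_filter] at hp
    obtain ⟨h1, h2⟩ := hkey p hp.1 hp.2
    have hp1 := hp.1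
    rw [NT, mem_filter, mem_product] at hp1
    rw [SS, mem_filter]
    refine ⟨hp1.1.1, h1, fun j => ?_⟩
    have h3 := hp1.2.2.2.2.2 j
    rw [← sum_add_sum_compl T, ← sum_add_sum_compl T fun i => (p.1 i : ℤ) ^ (j.val + 2)] at h3
    have e3 : ∑ i ∈ Tᶜ, (p.2 i : ℤ) ^ (j.val + 2) = ∑ i ∈ Tᶜ, (p.1 i : ℤ) ^ (j.val + 2) :=
      sum_congr rfl fun i hi => by rw [hp1.2.1 i (mem_compl.1 hi)]
    have e4 : ∑ i ∈ T, ((p.1 i : ℤ) + h i) ^ (j.val + 2) = ∑ i ∈ T, (p.2 i : ℤ) ^ (j.val + 2) :=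
      sum_congr rfl fun i _ => by rw [← h2 i]
    rw [sum_sub_distrib, e4]
    linarith
  · intro i hi h0
    exact hp0'.2.2.1 i hi (by simp only [h] at h0; omega)

/-- the constant -/
def CC (s n : ℕ) : ℕ := 2 ^ s * (2 ^ s * 3 ^ s * (n ^ s + (n * (n + 1) + 1) ^ n))

theorem nt_bound {s k : ℕ} (hk : 2 ≤ k) (N H : ℕ) (hH : 1 ≤ H) (hHN : H ≤ N) (T : Finset (Fin s))
    (hT : k < T.card) :
    (NT (k - 1) N H T).card ≤ 2 ^ s * 3 ^ s * ((k - 1) ^ s + ((k - 1) * (k - 1 + 1) + 1) ^ (k - 1)) *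
      (H ^ (s - 1) * N ^ (s - k + 1) + H ^ k * N ^ (s - 3)) := by
  obtain ⟨i0, hi0⟩ : T.Nonempty := card_pos.1 (by omega)
  have hTs : T.card ≤ s := by simpa using card_le_univ T
  refine (nt_count (k - 1) N H (by omega) T i0 hi0).trans ?_
  obtain ⟨m, hm⟩ : ∃ m, m = T.card := ⟨_, rfl⟩
  rw [← hm] at hT hTs ⊢
  set a : ℕ := (k - 1) ^ s
  set c : ℕ := ((k - 1) * (k - 1 + 1) + 1) ^ (k - 1)
  have h3 : (2 * H + 1) ^ (m - 1) ≤ 3 ^ s * H ^ (m - 1) := by
    calc (2 * H + 1) ^ (m - 1) ≤ (3 * H) ^ (m - 1) := Nat.pow_le_pow_left (by omega) _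
      _ = 3 ^ (m - 1) * H ^ (m - 1) := mul_pow _ _ _
      _ ≤ 3 ^ s * H ^ (m - 1) :=
        Nat.mul_le_mul_right _ (Nat.pow_le_pow_right (by norm_num) (by omega))
  have h4 : H ^ (m - 1) * (N ^ (k - 1 - 1) * N ^ (s - m)) ≤ H ^ k * N ^ (s - 3) := by
    have e1 : H ^ (m - 1) = H ^ k * H ^ (m - 1 - k) := by
      rw [← pow_add]; congr 1; omega
    have e2 : N ^ (s - 3) = N ^ (m - 1 - k) * (N ^ (k - 1 - 1) * N ^ (s - m)) := by
      rw [← pow_add, ← pow_add]; congr 1; omega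
    rw [e1, e2, mul_assoc]
    exact Nat.mul_le_mul_left _ (Nat.mul_le_mul_right _ (Nat.pow_le_pow_left hHN _))
  have h5 : H ^ (m - 1) * (N ^ (m - (k - 1)) * N ^ (s - m)) ≤ H ^ (s - 1) * N ^ (s - k + 1) := by
    rw [← pow_add]
    have : m - (k - 1) + (s - m) = s - k + 1 := by omega
    rw [this]
    exact Nat.mul_le_mul_right _ (Nat.pow_le_pow_right hH (by omega))
  calc 2 ^ s * (a * N ^ (k - 1 - 1) + c * N ^ (m - (k - 1))) * ((2 * H + 1) ^ (m - 1) * N ^ (s - m))
      ≤ 2 ^ s * (a * N ^ (k - 1 - 1) + c * N ^ (m - (k - 1))) * (3 ^ s * H ^ (m - 1) * N ^ (s - m)) :=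
        Nat.mul_le_mul_left _ (Nat.mul_le_mul_right _ h3)
    _ = 2 ^ s * 3 ^ s * (a * (H ^ (m - 1) * (N ^ (k - 1 - 1) * N ^ (s - m))) +
          c * (H ^ (m - 1) * (N ^ (m - (k - 1)) * N ^ (s - m)))) := by ring
    _ ≤ 2 ^ s * 3 ^ s * (a * (H ^ k * N ^ (s - 3)) + c * (H ^ (s - 1) * N ^ (s - k + 1))) :=
        Nat.mul_le_mul_left _ (Nat.add_le_add (Nat.mul_le_mul_left _ h4) (Nat.mul_le_mul_left _ h5))
    _ ≤ 2 ^ s * 3 ^ s * (a + c) * (H ^ (s - 1) * N ^ (s - k + 1) + H ^ k * N ^ (s - 3)) := by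
        rw [mul_assoc (2 ^ s * 3 ^ s)]
        apply Nat.mul_le_mul_left
        nlinarith [Nat.zero_le (a * (H ^ (s - 1) * N ^ (s - k + 1))),
          Nat.zero_le (c * (H ^ k * N ^ (s - 3)))]

open scoped Classical in
/-- non-diagonal solutions with `|x_i - y_i| ≤ H` -/
noncomputable def ND (s k N H : ℕ) : Finset ((Fin s → ℕ) × (Fin s → ℕ)) :=
  ((Fintype.piFinset fun _ : Fin s => Icc 1 N) ×ˢ
    (Fintype.piFinset fun _ : Fin s => Icc 1 N)).filter fun p =>
    (∀ j : Fin k, ∑ i : Fin s, p.1 i ^ (j.val + 1) = ∑ i : Fin s, p.2 i ^ (j.val + 1)) ∧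
    (∀ i, |(p.1 i : ℤ) - p.2 i| ≤ H) ∧ ¬ ∃ σ : Equiv.Perm (Fin s), p.2 = p.1 ∘ σ

open scoped Classical in
theorem nd_bound {s k : ℕ} (hk : 2 ≤ k) (N H : ℕ) (hH : 1 ≤ H) (hHN : H ≤ N) :
    (ND s k N H).card ≤ CC s (k - 1) * (H ^ (s - 1) * N ^ (s - k + 1) + H ^ k * N ^ (s - 3)) := by
  have hsub : ND s k N H ⊆ ((univ : Finset (Finset (Fin s))).filter fun T => k < T.card).biUnion
      fun T => NT (k - 1) N H T := by
    intro p hp
    rw [ND, mem_filter] at hp
    obtain ⟨h1, h2, h3, h4⟩ := hp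
    let T : Finset (Fin s) := univ.filter fun i => p.1 i ≠ p.2 i
    have hT0 : ∀ i, i ∉ T → p.1 i = p.2 i := by
      intro i hi
      by_contra hne
      exact hi (by simp [T, hne])
    have hT1 : k < T.card := by
      by_contra hle
      exact h4 (newton_support p.1 p.2 h2 T hT0 (not_lt.1 hle))
    rw [mem_biUnion]
    refine ⟨T, by simp [hT1], ?_⟩
    rw [NT, mem_filter]
    refine ⟨h1, hT0, fun i hi => (mem_filter.1 hi).2, fun i => ?_, ?_, fun j => ?_⟩
    · rw [abs_sub_comm]; exact h3 i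
    · have := h2 ⟨0, by omega⟩
      simp only [zero_add, pow_one] at this
      exact_mod_cast this.symm
    · have := h2 ⟨j.val + 1, by omega⟩
      exact_mod_cast this.symm
  calc (ND s k N H).card ≤ _ := card_le_card hsub
    _ ≤ ∑ T ∈ (univ : Finset (Finset (Fin s))).filter (fun T => k < T.card), (NT (k - 1) N H T).card :=
        card_biUnion_le
    _ ≤ ∑ T ∈ (univ : Finset (Finset (Fin s))).filter (fun T => k < T.card),
        2 ^ s * 3 ^ s * ((k - 1) ^ s + ((k - 1) * (k - 1 + 1) + 1) ^ (k - 1)) *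
        (H ^ (s - 1) * N ^ (s - k + 1) + H ^ k * N ^ (s - 3)) :=
        sum_le_sum fun T hT => nt_bound hk N H hH hHN T (mem_filter.1 hT).2
    _ ≤ 2 ^ s * (2 ^ s * 3 ^ s * ((k - 1) ^ s + ((k - 1) * (k - 1 + 1) + 1) ^ (k - 1)) *
        (H ^ (s - 1) * N ^ (s - k + 1) + H ^ k * N ^ (s - 3))) := by
        rw [sum_const, smul_eq_mul]
        apply Nat.mul_le_mul_right
        refine (card_filter_le _ _).trans ?_
        simp
    _ = _ := by rw [CC]; ring

open scoped Classical in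
/-- non-diagonal solutions that become near-diagonal after a permutation -/
noncomputable def NDP (s k N H : ℕ) : Finset ((Fin s → ℕ) × (Fin s → ℕ)) :=
  ((Fintype.piFinset fun _ : Fin s => Icc 1 N) ×ˢ
    (Fintype.piFinset fun _ : Fin s => Icc 1 N)).filter fun p =>
    (∀ j : Fin k, ∑ i : Fin s, p.1 i ^ (j.val + 1) = ∑ i : Fin s, p.2 i ^ (j.val + 1)) ∧
    (∃ σ : Equiv.Perm (Fin s), ∀ i, |(p.1 i : ℤ) - p.2 (σ i)| ≤ H) ∧
    ¬ ∃ σ : Equiv.Perm (Fin s), p.2 = p.1 ∘ σ

open scoped Classical in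
theorem ndp_bound {s k : ℕ} (hk : 2 ≤ k) (N H : ℕ) (hH : 1 ≤ H) (hHN : H ≤ N) :
    (NDP s k N H).card ≤
      s.factorial * CC s (k - 1) * (H ^ (s - 1) * N ^ (s - k + 1) + H ^ k * N ^ (s - 3)) := by
  have hsub : NDP s k N H ⊆ (univ : Finset (Equiv.Perm (Fin s))).biUnion
      fun σ => (ND s k N H).image fun p => (p.1, p.2 ∘ σ) := by
    intro p hp
    rw [NDP, mem_filter] at hp
    obtain ⟨h1, h2, ⟨σ, h3⟩, h4⟩ := hp
    rw [mem_biUnion]
    refine ⟨σ.symm, mem_univ _, ?_⟩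
    rw [mem_image]
    refine ⟨(p.1, p.2 ∘ σ), ?_, ?_⟩
    · rw [ND, mem_filter]
      rw [mem_product, Fintype.mem_piFinset, Fintype.mem_piFinset] at h1 ⊢
      refine ⟨⟨h1.1, fun i => h1.2 (σ i)⟩, fun j => ?_, h3, ?_⟩
      · rw [h2 j]
        exact (Equiv.sum_comp σ (fun i => p.2 i ^ (j.val + 1))).symm
      · rintro ⟨τ, hτ⟩
        refine h4 ⟨σ.symm.trans τ, ?_⟩
        funext i
        have := congrFun hτ (σ.symm i)
        simpa using this
    · refine Prod.ext rfl ?_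
      funext i
      simp
  calc (NDP s k N H).card ≤ _ := card_le_card hsub
    _ ≤ ∑ σ : Equiv.Perm (Fin s), ((ND s k N H).image fun p => (p.1, p.2 ∘ σ)).card :=
        card_biUnion_le
    _ ≤ ∑ _σ : Equiv.Perm (Fin s), CC s (k - 1) *
        (H ^ (s - 1) * N ^ (s - k + 1) + H ^ k * N ^ (s - 3)) :=
        sum_le_sum fun σ _ => card_image_le.trans (nd_bound hk N H hH hHN)
    _ = _ := by
        rw [sum_const, card_univ, Fintype.card_perm, Fintype.card_fin, smul_eq_mul]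
        ring

end Pool.Agent.R470.VM
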