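import Pool.Agent.R470.VM.Core2
import Pool.Agent.R470.VM.Asm

set_option autoImplicit false

/-! Solutions of Vinogradov's system with few far pairs. -/

namespace Pool.Agent.R470.VM

open Finset

open scoped Classical in
/-- solutions with `x_i - y_i` small and nonzero on `T`, arbitrary on `R`, and zero elsewhere -/
noncomputable def NR {s : ℕ} (n N H : ℕ) (T R : Finset (Fin s)) :
    Finset ((Fin s → ℕ) × (Fin s → ℕ)) :=
  ((Fintype.piFinset fun _ : Fin s => Icc 1 N) ×ˢ
    (Fintype.piFinset fun _ : Fin s => Icc 1 N)).filter fun p =>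
    (∀ i, i ∉ T → i ∉ R → p.1 i = p.2 i) ∧ (∀ i ∈ T, p.1 i ≠ p.2 i) ∧
    (∀ i ∈ T, |(p.2 i : ℤ) - p.1 i| ≤ H) ∧
    ∀ j : Fin (n + 1), ∑ i, (p.1 i) ^ (j.val + 1) = ∑ i, (p.2 i) ^ (j.val + 1)

open scoped Classical in
theorem nr_count {s : ℕ} (n N H : ℕ) (hN : 1 ≤ N) (T R : Finset (Fin s)) (hTR : Disjoint T R)
    (i0 : Fin s) (hi0 : i0 ∈ R) :
    (NR n N H T R).card ≤
      (2 ^ (2 * s) * ((n + 1) ^ (2 * s) * N ^ n +
        ((n + 1) * (n + 1) + 1) ^ (n + 1) * N ^ (T.card + 2 * R.card - (n + 1)))) *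
        ((2 * H + 1) ^ T.card * N ^ (s - (T.card + R.card))) := by
  let g : (Fin s → ℕ) × (Fin s → ℕ) → (Fin s → ℤ) := fun p i =>
    if i ∈ T then (p.2 i : ℤ) - p.1 i else if i ∈ R then 0 else (p.1 i : ℤ)
  have himg : ((NR n N H T R).image g).card ≤
      (2 * H + 1) ^ T.card * N ^ (s - (T.card + R.card)) := by
    calc _ ≤ (Fintype.piFinset fun i : Fin s => if i ∈ T then Icc (-(H : ℤ)) H else if i ∈ R then
          {0} else Icc (1 : ℤ) N).card := by
          apply card_le_card
          intro v hv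
          obtain ⟨p, hp, rfl⟩ := mem_image.1 hv
          rw [NR, mem_filter, mem_product, Fintype.mem_piFinset, Fintype.mem_piFinset] at hp
          rw [Fintype.mem_piFinset]
          intro i
          by_cases hi : i ∈ T
          · have := hp.2.2.2.1 i hi
            simp only [g, if_pos hi, mem_Icc]
            exact abs_le.1 this
          · by_cases hiR : i ∈ R
            · simp [g, hi, hiR]
            · have := hp.1.1 i
              simp only [g, if_neg hi, if_neg hiR, mem_Icc] at this ⊢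
              omega
      _ = (2 * H + 1) ^ T.card * N ^ (s - (T.card + R.card)) := by
          rw [Fintype.card_piFinset]
          rw [← prod_mul_prod_compl (T ∪ R), prod_union hTR]
          have e1 : ∏ i ∈ T, (if i ∈ T then Icc (-(H : ℤ)) H else if i ∈ R then
              {0} else Icc (1 : ℤ) N).card = (2 * H + 1) ^ T.card := by
            rw [prod_congr rfl (g := fun _ => 2 * H + 1), prod_const]
            intro i hi
            simp only [if_pos hi, Int.card_Icc]
            omega
          have e2 : ∏ i ∈ R, (if i ∈ T then Icc (-(H : ℤ)) H else if i ∈ R then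
              {0} else Icc (1 : ℤ) N).card = 1 := by
            apply prod_eq_one
            intro i hi
            have : i ∉ T := fun h => (disjoint_left.1 hTR h) hi
            simp [this, hi]
          have e3 : ∏ i ∈ (T ∪ R)ᶜ, (if i ∈ T then Icc (-(H : ℤ)) H else if i ∈ R then
              {0} else Icc (1 : ℤ) N).card = N ^ (s - (T.card + R.card)) := by
            rw [prod_congr rfl (g := fun _ => N), prod_const, card_compl, Fintype.card_fin,
              card_union_of_disjoint hTR]
            intro i hi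
            rw [mem_compl, mem_union, not_or] at hi
            simp [hi.1, hi.2]
          rw [e1, e2, e3, mul_one]
  refine (card_le_mul_card_image (NR n N H T R) _ ?_).trans (Nat.mul_le_mul_left _ himg)
  intro v hv
  obtain ⟨p0, hp0, hv0⟩ := mem_image.1 hv
  have hp0' := hp0
  rw [NR, mem_filter] at hp0'
  let h : Fin s → ℤ := fun i => (p0.2 i : ℤ) - p0.1 i
  have hkey : ∀ p ∈ NR n N H T R, g p = v → (∀ i, i ∉ T → i ∉ R → p.1 i = p0.1 i) ∧
      (∀ i ∈ T, (p.2 i : ℤ) = p.1 i + h i) := by
    intro p hp hpv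
    have h1 : ∀ i, g p i = g p0 i := fun i => congrFun (hpv.trans hv0.symm) i
    refine ⟨fun i hi hiR => ?_, fun i hi => ?_⟩
    · have h3 := h1 i
      simp only [g, if_neg hi, if_neg hiR] at h3
      exact_mod_cast h3
    · have h3 := h1 i
      simp only [g, if_pos hi] at h3
      simp only [h]
      linarith
  let Φ : (Fin s → ℕ) × (Fin s → ℕ) → (Fin s ⊕ Fin s → ℕ) := fun p =>
    Sum.elim p.1 (fun i => if i ∈ R then p.2 i else 0)
  have hinj : Set.InjOn Φ (((NR n N H T R).filter fun p => g p = v :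
      Finset ((Fin s → ℕ) × (Fin s → ℕ))) : Set ((Fin s → ℕ) × (Fin s → ℕ))) := by
    intro p hp q hq hpq
    rw [mem_coe, mem_filter] at hp hq
    obtain ⟨a1, a2⟩ := hkey p hp.1 hp.2
    obtain ⟨b1, b2⟩ := hkey q hq.1 hq.2
    have hp1 := hp.1
    have hq1 := hq.1
    rw [NR, mem_filter] at hp1 hq1
    have e1 : p.1 = q.1 := by
      funext i
      exact congrFun hpq (Sum.inl i)
    refine Prod.ext e1 ?_
    funext i
    by_cases hiT : i ∈ T
    · have h3 := a2 i hiT
      rw [e1, ← b2 i hiT] at h3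
      exact_mod_cast h3
    · by_cases hiR : i ∈ R
      · have h3 := congrFun hpq (Sum.inr i)
        simp only [Φ, Sum.elim_inr, if_pos hiR] at h3
        exact h3
      · rw [← hp1.2.1 i hiT hiR, ← hq1.2.1 i hiT hiR, e1]
  rw [← card_image_of_injOn hinj]
  have hcard2 : Fintype.card (Fin s ⊕ Fin s) = 2 * s := by
    rw [Fintype.card_sum, Fintype.card_fin]; ring
  let V : Finset (Fin s ⊕ Fin s) := (T ∪ R).disjSum R
  have hVc : V.card = T.card + 2 * R.card := by
    rw [card_disjSum, card_union_of_disjoint hTR]; ring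
  let a : Fin s ⊕ Fin s → ℚ := Sum.elim (fun i => if i ∈ R then 0 else 1) (fun _ => 1)
  let b : Fin s ⊕ Fin s → ℚ := Sum.elim (fun _ => 1) (fun _ => 0)
  let hh : Fin s ⊕ Fin s → ℤ := Sum.elim (fun i => if i ∈ R then 0 else h i) (fun _ => 0)
  let u : Fin s ⊕ Fin s → ℕ := Sum.elim p0.1 (fun _ => 0)
  have hmain := s2_count n N hN V a b hh u ?_ (Sum.inr i0) ?_ ?_
  · rw [hcard2, hVc] at hmain
    refine le_trans (card_le_card ?_) hmain
    intro z hz
    obtain ⟨p, hp, rfl⟩ := mem_image.1 hz
    rw [mem_filter] at hp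
    obtain ⟨h1, h2⟩ := hkey p hp.1 hp.2
    have hp1 := hp.1
    rw [NR, mem_filter, mem_product, Fintype.mem_piFinset, Fintype.mem_piFinset] at hp1
    rw [S2, mem_filter, Fintype.mem_piFinset]
    refine ⟨?_, fun j => ?_⟩
    · rintro (i | i)
      · by_cases hi : i ∈ T ∪ R
        · rw [if_pos (by simpa [V] using hi)]
          exact hp1.1.1 i
        · rw [if_neg (by simpa [V] using hi)]
          rw [mem_union, not_or] at hi
          simp only [Φ, u, Sum.elim_inl, mem_singleton]
          exact h1 i hi.1 hi.2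
      · by_cases hi : i ∈ R
        · rw [if_pos (by simpa [V] using hi)]
          simp only [Φ, Sum.elim_inr, if_pos hi]
          exact hp1.1.2 i
        · rw [if_neg (by simpa [V] using hi)]
          simp [Φ, u, hi]
    · simp only [V]
      rw [sum_disjSum, sum_union hTR]
      have e1 : ∑ x ∈ T, (a (Sum.inl x) * ((Φ p (Sum.inl x) : ℚ) + hh (Sum.inl x)) ^ (j.val + 1) -
          b (Sum.inl x) * (Φ p (Sum.inl x) : ℚ) ^ (j.val + 1)) =
          ∑ x ∈ T, ((p.2 x : ℚ) ^ (j.val + 1) - (p.1 x : ℚ) ^ (j.val + 1)) := by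
        refine sum_congr rfl fun i hi => ?_
        have hiR : i ∉ R := disjoint_left.1 hTR hi
        have h3 : (p.2 i : ℚ) = (p.1 i : ℚ) + (h i : ℚ) := by exact_mod_cast h2 i hi
        simp only [a, b, hh, Φ, Sum.elim_inl, if_neg hiR]
        rw [h3]; ring
      have e2 : ∑ x ∈ R, (a (Sum.inl x) * ((Φ p (Sum.inl x) : ℚ) + hh (Sum.inl x)) ^ (j.val + 1) -
          b (Sum.inl x) * (Φ p (Sum.inl x) : ℚ) ^ (j.val + 1)) =
          ∑ x ∈ R, (- (p.1 x : ℚ) ^ (j.val + 1)) := by
        refine sum_congr rfl fun i hi => ?_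
        simp only [a, b, hh, Φ, Sum.elim_inl, if_pos hi]
        ring
      have e3 : ∑ x ∈ R, (a (Sum.inr x) * ((Φ p (Sum.inr x) : ℚ) + hh (Sum.inr x)) ^ (j.val + 1) -
          b (Sum.inr x) * (Φ p (Sum.inr x) : ℚ) ^ (j.val + 1)) =
          ∑ x ∈ R, (p.2 x : ℚ) ^ (j.val + 1) := by
        refine sum_congr rfl fun i hi => ?_
        simp only [a, b, hh, Φ, Sum.elim_inr, if_pos hi]
        push_cast
        ring
      rw [e1, e2, e3]
      have h4 : ∑ i, (p.1 i : ℚ) ^ (j.val + 1) = ∑ i, (p.2 i : ℚ) ^ (j.val + 1) := by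
        exact_mod_cast hp1.2.2.2.2 j
      rw [← sum_add_sum_compl (T ∪ R), ← sum_add_sum_compl (T ∪ R) fun i => (p.2 i : ℚ) ^ (j.val + 1),
        sum_union hTR, sum_union hTR] at h4
      have e5 : ∑ i ∈ (T ∪ R)ᶜ, (p.1 i : ℚ) ^ (j.val + 1) = ∑ i ∈ (T ∪ R)ᶜ, (p.2 i : ℚ) ^ (j.val + 1) := by
        refine sum_congr rfl fun i hi => ?_
        rw [mem_compl, mem_union, not_or] at hi
        rw [hp1.2.1 i hi.1 hi.2]
      rw [sum_sub_distrib, sum_neg_distrib]
      linarith
  · rintro (i | i) hi
    · by_cases hiR : i ∈ R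
      · left
        simp [a, b, hh, hiR]
      · right
        have hiT : i ∈ T := by
          simp only [V, inl_mem_disjSum, mem_union] at hi
          tauto
        refine ⟨by simp [a, hiR], by simp [b], ?_⟩
        simp only [hh, Sum.elim_inl, if_neg hiR, h]
        have := hp0'.2.2.1 i hiT
        omega
    · left
      simp [a, b, hh]
  · simpa [V] using hi0
  · simp [a, b]

end Pool.Agent.R470.VM
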