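import Pool.Agent.R470.VM.Asm2

set_option autoImplicit false

/-! Solutions of Vinogradov's system with few far pairs: the count. -/

namespace Pool.Agent.R470.VM

open Finset

theorem nr_bound {s n r : ℕ} (N H : ℕ) (hH : 1 ≤ H) (hHN : H ≤ N) (T R : Finset (Fin s))
    (hTR : Disjoint T R) (hR : 1 ≤ R.card) (hRr : R.card ≤ r) (hrs : r ≤ s)
    (hTc : n + 2 ≤ T.card + R.card) :
    (NR n N H T R).card ≤ 2 ^ (2 * s) * 3 ^ s *
      ((n + 1) ^ (2 * s) + ((n + 1) * (n + 1) + 1) ^ (n + 1)) *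
      (H ^ (s - r) * N ^ (s - (n + 1) + r) + H ^ (n + 1) * N ^ (s - 2)) := by
  obtain ⟨i0, hi0⟩ : R.Nonempty := card_pos.1 hR
  have hTs : T.card + R.card ≤ s := by
    rw [← card_union_of_disjoint hTR]
    simpa using card_le_univ (T ∪ R)
  refine (nr_count n N H (by omega) T R hTR i0 hi0).trans ?_
  obtain ⟨m, hm⟩ : ∃ m, m = T.card := ⟨_, rfl⟩
  obtain ⟨ρ, hρ⟩ : ∃ ρ, ρ = R.card := ⟨_, rfl⟩
  rw [← hm, ← hρ] at hTc hTs ⊢
  rw [← hρ] at hR hRr
  set a : ℕ := (n + 1) ^ (2 * s)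
  set c : ℕ := ((n + 1) * (n + 1) + 1) ^ (n + 1)
  have h3 : (2 * H + 1) ^ m ≤ 3 ^ s * H ^ m := by
    calc (2 * H + 1) ^ m ≤ (3 * H) ^ m := Nat.pow_le_pow_left (by omega) _
      _ = 3 ^ m * H ^ m := mul_pow _ _ _
      _ ≤ 3 ^ s * H ^ m :=
        Nat.mul_le_mul_right _ (Nat.pow_le_pow_right (by norm_num) (by omega))
  have h4 : H ^ m * (N ^ n * N ^ (s - (m + ρ))) ≤ H ^ (n + 1) * N ^ (s - 2) := by
    rw [← pow_add]
    rcases le_or_gt m (n + 1) with h | h
    · exact Nat.mul_le_mul (Nat.pow_le_pow_right hH h) (Nat.pow_le_pow_right (by omega) (by omega))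
    · have e1 : H ^ m = H ^ (n + 1) * H ^ (m - (n + 1)) := by
        rw [← pow_add]; congr 1; omega
      rw [e1, mul_assoc]
      apply Nat.mul_le_mul_left
      calc H ^ (m - (n + 1)) * N ^ (n + (s - (m + ρ)))
          ≤ N ^ (m - (n + 1)) * N ^ (n + (s - (m + ρ))) :=
            Nat.mul_le_mul_right _ (Nat.pow_le_pow_left hHN _)
        _ = N ^ (m - (n + 1) + (n + (s - (m + ρ)))) := (pow_add _ _ _).symm
        _ ≤ N ^ (s - 2) := Nat.pow_le_pow_right (by omega) (by omega)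
  have h5 : H ^ m * (N ^ (m + 2 * ρ - (n + 1)) * N ^ (s - (m + ρ))) ≤
      H ^ (s - r) * N ^ (s - (n + 1) + r) := by
    rw [← pow_add]
    have e0 : m + 2 * ρ - (n + 1) + (s - (m + ρ)) = s - (n + 1) + ρ := by omega
    rw [e0]
    calc H ^ m * N ^ (s - (n + 1) + ρ) ≤ H ^ (s - ρ) * N ^ (s - (n + 1) + ρ) :=
          Nat.mul_le_mul_right _ (Nat.pow_le_pow_right hH (by omega))
      _ = H ^ (s - r) * (H ^ (r - ρ) * N ^ (s - (n + 1) + ρ)) := by
          rw [← mul_assoc, ← pow_add]; congr 2; omega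
      _ ≤ H ^ (s - r) * (N ^ (r - ρ) * N ^ (s - (n + 1) + ρ)) :=
          Nat.mul_le_mul_left _ (Nat.mul_le_mul_right _ (Nat.pow_le_pow_left hHN _))
      _ = H ^ (s - r) * N ^ (s - (n + 1) + r) := by
          rw [← pow_add]; congr 2; omega
  calc 2 ^ (2 * s) * (a * N ^ n + c * N ^ (m + 2 * ρ - (n + 1))) *
        ((2 * H + 1) ^ m * N ^ (s - (m + ρ)))
      ≤ 2 ^ (2 * s) * (a * N ^ n + c * N ^ (m + 2 * ρ - (n + 1))) *
        (3 ^ s * H ^ m * N ^ (s - (m + ρ))) :=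
        Nat.mul_le_mul_left _ (Nat.mul_le_mul_right _ h3)
    _ = 2 ^ (2 * s) * 3 ^ s * (a * (H ^ m * (N ^ n * N ^ (s - (m + ρ)))) +
          c * (H ^ m * (N ^ (m + 2 * ρ - (n + 1)) * N ^ (s - (m + ρ))))) := by ring
    _ ≤ 2 ^ (2 * s) * 3 ^ s * (a * (H ^ (n + 1) * N ^ (s - 2)) +
          c * (H ^ (s - r) * N ^ (s - (n + 1) + r))) :=
        Nat.mul_le_mul_left _ (Nat.add_le_add (Nat.mul_le_mul_left _ h4) (Nat.mul_le_mul_left _ h5))
    _ ≤ 2 ^ (2 * s) * 3 ^ s * (a + c) *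
          (H ^ (s - r) * N ^ (s - (n + 1) + r) + H ^ (n + 1) * N ^ (s - 2)) := by
        rw [mul_assoc (2 ^ (2 * s) * 3 ^ s)]
        apply Nat.mul_le_mul_left
        nlinarith [Nat.zero_le (a * (H ^ (s - r) * N ^ (s - (n + 1) + r))),
          Nat.zero_le (c * (H ^ (n + 1) * N ^ (s - 2)))]

open scoped Classical in
/-- non-diagonal solutions with at most `r` indices `i` with `|x_i - y_i| > H` -/
noncomputable def NDR (s k r N H : ℕ) : Finset ((Fin s → ℕ) × (Fin s → ℕ)) :=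
  ((Fintype.piFinset fun _ : Fin s => Icc 1 N) ×ˢ
    (Fintype.piFinset fun _ : Fin s => Icc 1 N)).filter fun p =>
    (∀ j : Fin k, ∑ i : Fin s, p.1 i ^ (j.val + 1) = ∑ i : Fin s, p.2 i ^ (j.val + 1)) ∧
    (univ.filter fun i => (H : ℤ) < |(p.1 i : ℤ) - p.2 i|).card ≤ r ∧
    ¬ ∃ σ : Equiv.Perm (Fin s), p.2 = p.1 ∘ σ

/-- the constant -/
def C2 (s n : ℕ) : ℕ := CC s n + 2 ^ (2 * s) * (2 ^ (2 * s) * 3 ^ s *
      ((n + 1) ^ (2 * s) + ((n + 1) * (n + 1) + 1) ^ (n + 1)))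

open scoped Classical in
theorem ndr_bound {s n r : ℕ} (hn : 1 ≤ n) (hr : 1 ≤ r) (hrs : r ≤ s)
    (N H : ℕ) (hH : 1 ≤ H) (hHN : H ≤ N) :
    (NDR s (n + 1) r N H).card ≤
      C2 s n * (H ^ (s - r) * N ^ (s - (n + 1) + r) + H ^ (n + 1) * N ^ (s - 2)) := by
  have hsub : NDR s (n + 1) r N H ⊆ ND s (n + 1) N H ∪
      ((univ : Finset (Finset (Fin s) × Finset (Fin s))).filter fun q =>
        Disjoint q.1 q.2 ∧ 1 ≤ q.2.card ∧ q.2.card ≤ r ∧ n + 2 ≤ q.1.card + q.2.card).biUnion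
      fun q => NR n N H q.1 q.2 := by
    intro p hp
    rw [NDR, mem_filter] at hp
    obtain ⟨h1, h2, h3, h4⟩ := hp
    let R : Finset (Fin s) := univ.filter fun i => (H : ℤ) < |(p.1 i : ℤ) - p.2 i|
    let T : Finset (Fin s) := univ.filter fun i => p.1 i ≠ p.2 i ∧ |(p.1 i : ℤ) - p.2 i| ≤ H
    have hR0 : ∀ i, i ∉ R → |(p.1 i : ℤ) - p.2 i| ≤ H := by
      intro i hi
      by_contra hne
      exact hi (by simp [R, not_le.1 hne])
    have hT0 : ∀ i, i ∉ T → i ∉ R → p.1 i = p.2 i := by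
      intro i hi hiR
      by_contra hne
      exact hi (by simp only [T, mem_filter, mem_univ, true_and]; exact ⟨hne, hR0 i hiR⟩)
    have hTR : Disjoint T R := by
      rw [disjoint_left]
      intro i hi hiR
      have e1 := (mem_filter.1 hi).2.2
      have e2 := (mem_filter.1 hiR).2
      omega
    have hT1 : n + 2 ≤ T.card + R.card := by
      by_contra hle
      refine h4 (newton_support p.1 p.2 h2 (T ∪ R) (fun i hi => ?_) ?_)
      · rw [mem_union, not_or] at hi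
        exact hT0 i hi.1 hi.2
      · rw [card_union_of_disjoint hTR]
        omega
    rw [mem_union]
    by_cases hRe : R.card = 0
    · left
      rw [ND, mem_filter]
      refine ⟨h1, h2, fun i => hR0 i ?_, h4⟩
      rw [card_eq_zero] at hRe
      rw [hRe]; simp
    · right
      rw [mem_biUnion]
      refine ⟨(T, R), ?_, ?_⟩
      · rw [mem_filter]
        exact ⟨mem_univ _, hTR, by simp only; omega, h3, hT1⟩
      · rw [NR, mem_filter]
        refine ⟨h1, hT0, fun i hi => (mem_filter.1 hi).2.1, fun i hi => ?_, h2⟩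
        rw [abs_sub_comm]; exact (mem_filter.1 hi).2.2
  have h1 : (ND s (n + 1) N H).card ≤
      CC s n * (H ^ (s - r) * N ^ (s - (n + 1) + r) + H ^ (n + 1) * N ^ (s - 2)) := by
    refine (nd_bound (by omega) N H hH hHN).trans ?_
    rw [Nat.add_sub_cancel]
    apply Nat.mul_le_mul_left
    apply Nat.add_le_add
    · calc H ^ (s - 1) * N ^ (s - (n + 1) + 1)
          = H ^ (s - r) * (H ^ (r - 1) * N ^ (s - (n + 1) + 1)) := by
            rw [← mul_assoc, ← pow_add]; congr 2; omega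
        _ ≤ H ^ (s - r) * (N ^ (r - 1) * N ^ (s - (n + 1) + 1)) :=
            Nat.mul_le_mul_left _ (Nat.mul_le_mul_right _ (Nat.pow_le_pow_left hHN _))
        _ = H ^ (s - r) * N ^ (s - (n + 1) + r) := by
            rw [← pow_add]; congr 2; omega
    · exact Nat.mul_le_mul_left _ (Nat.pow_le_pow_right (by omega) (by omega))
  calc (NDR s (n + 1) r N H).card ≤ _ := card_le_card hsub
    _ ≤ (ND s (n + 1) N H).card + _ := card_union_le _ _
    _ ≤ CC s n * (H ^ (s - r) * N ^ (s - (n + 1) + r) + H ^ (n + 1) * N ^ (s - 2)) +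
        2 ^ (2 * s) * (2 ^ (2 * s) * 3 ^ s *
      ((n + 1) ^ (2 * s) + ((n + 1) * (n + 1) + 1) ^ (n + 1))) *
      (H ^ (s - r) * N ^ (s - (n + 1) + r) + H ^ (n + 1) * N ^ (s - 2)) := by
        apply Nat.add_le_add h1
        refine card_biUnion_le.trans ?_
        refine (sum_le_sum fun q hq => ?_).trans (b := ∑ q ∈ (univ : Finset (Finset (Fin s) ×
          Finset (Fin s))).filter (fun q => Disjoint q.1 q.2 ∧ 1 ≤ q.2.card ∧ q.2.card ≤ r ∧
            n + 2 ≤ q.1.card + q.2.card), 2 ^ (2 * s) * 3 ^ s *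
          ((n + 1) ^ (2 * s) + ((n + 1) * (n + 1) + 1) ^ (n + 1)) *
          (H ^ (s - r) * N ^ (s - (n + 1) + r) + H ^ (n + 1) * N ^ (s - 2))) ?_
        · obtain ⟨-, q1, q2, q3, q4⟩ := mem_filter.1 hq
          exact nr_bound N H hH hHN q.1 q.2 q1 q2 q3 hrs q4
        · have hc : ((univ : Finset (Finset (Fin s) × Finset (Fin s))).filter (fun q =>
              Disjoint q.1 q.2 ∧ 1 ≤ q.2.card ∧ q.2.card ≤ r ∧ n + 2 ≤ q.1.card + q.2.card)).card ≤
              2 ^ (2 * s) := by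
            refine (card_filter_le _ _).trans ?_
            rw [card_univ, Fintype.card_prod, Fintype.card_finset, Fintype.card_fin, ← pow_add]
            exact Nat.pow_le_pow_right (by norm_num) (by omega)
          rw [sum_const, smul_eq_mul]
          refine (Nat.mul_le_mul_right _ hc).trans (le_of_eq ?_)
          ring
    _ = _ := by rw [C2]; ring

open scoped Classical in
/-- non-diagonal solutions for which some matching has at most `r` far pairs -/
noncomputable def NDRP (s k r N H : ℕ) : Finset ((Fin s → ℕ) × (Fin s → ℕ)) :=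
  ((Fintype.piFinset fun _ : Fin s => Icc 1 N) ×ˢ
    (Fintype.piFinset fun _ : Fin s => Icc 1 N)).filter fun p =>
    (∀ j : Fin k, ∑ i : Fin s, p.1 i ^ (j.val + 1) = ∑ i : Fin s, p.2 i ^ (j.val + 1)) ∧
    (∃ σ : Equiv.Perm (Fin s), (univ.filter fun i => (H : ℤ) < |(p.1 i : ℤ) - p.2 (σ i)|).card ≤ r) ∧
    ¬ ∃ σ : Equiv.Perm (Fin s), p.2 = p.1 ∘ σ

open scoped Classical in
theorem ndrp_le {s k r : ℕ} (N H : ℕ) :
    (NDRP s k r N H).card ≤ s.factorial * (NDR s k r N H).card := by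
  have hsub : NDRP s k r N H ⊆ (univ : Finset (Equiv.Perm (Fin s))).biUnion
      fun σ => (NDR s k r N H).image fun p => (p.1, p.2 ∘ σ) := by
    intro p hp
    rw [NDRP, mem_filter] at hp
    obtain ⟨h1, h2, ⟨σ, h3⟩, h4⟩ := hp
    rw [mem_biUnion]
    refine ⟨σ.symm, mem_univ _, ?_⟩
    rw [mem_image]
    refine ⟨(p.1, p.2 ∘ σ), ?_, ?_⟩
    · rw [NDR, mem_filter]
      rw [mem_product, Fintype.mem_piFinset, Fintype.mem_piFinset] at h1 ⊢
      refine ⟨⟨h1.1, fun i => h1.2 (σ i)⟩, fun j => ?_, h3, ?_⟩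
      · rw [h2 j]
        exact (Equiv.sum_comp σ (fun i => p.2 i ^ (j.val + 1))).symm
      · rintro ⟨τ, hτ⟩
        refine h4 ⟨σ.symm.trans τ, ?_⟩
        funext i
        have := congrFun hτ (σ.symm i)
        simpa using this
    · refine Prod.ext rfl ?_
      funext i
      simp
  calc (NDRP s k r N H).card ≤ _ := card_le_card hsub
    _ ≤ ∑ σ : Equiv.Perm (Fin s), ((NDR s k r N H).image fun p => (p.1, p.2 ∘ σ)).card :=
        card_biUnion_le
    _ ≤ ∑ _σ : Equiv.Perm (Fin s), (NDR s k r N H).card := sum_le_sum fun σ _ => card_image_le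
    _ = _ := by
        rw [sum_const, card_univ, Fintype.card_perm, Fintype.card_fin, smul_eq_mul]

open scoped Classical in
/-- diagonal solutions are few -/
theorem diag_le (s N : ℕ) :
    (((Fintype.piFinset fun _ : Fin s => Icc 1 N) ×ˢ
      (Fintype.piFinset fun _ : Fin s => Icc 1 N)).filter fun p : (Fin s → ℕ) × (Fin s → ℕ) =>
      ∃ σ : Equiv.Perm (Fin s), p.2 = p.1 ∘ σ).card ≤ s.factorial * N ^ s := by
  calc _ ≤ (((univ : Finset (Equiv.Perm (Fin s))) ×ˢ (Fintype.piFinset fun _ : Fin s => Icc 1 N)).image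
        fun q : Equiv.Perm (Fin s) × (Fin s → ℕ) => (q.2, q.2 ∘ q.1)).card := by
        apply card_le_card
        intro p hp
        rw [mem_filter, mem_product] at hp
        obtain ⟨⟨h1, h2⟩, σ, h3⟩ := hp
        rw [mem_image]
        exact ⟨(σ, p.1), mem_product.2 ⟨mem_univ _, h1⟩, Prod.ext rfl h3.symm⟩
    _ ≤ _ := card_image_le
    _ = s.factorial * N ^ s := by
        rw [card_product, card_univ, Fintype.card_perm, Fintype.card_fin, Fintype.card_piFinset]
        simp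

end Pool.Agent.R470.VM
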