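import Pool.Agent.R470.VM.Bez

set_option autoImplicit false

/-! Solutions of `∑ ((x_i + h_i)^j - x_i^j) = 0`, `2 ≤ j ≤ n + 1`, with fixed differences `h_i`. -/

namespace Pool.Agent.R470.VM

open Finset

/-- the differences of the powers `1, …, n` of `z + h` and `z` -/
def vec (n : ℕ) (z h : ℤ) : Fin n → ℚ := fun j => ((z : ℚ) + h) ^ (j.val + 1) - (z : ℚ) ^ (j.val + 1)

theorem few_in_subspace {n : ℕ} (W : Submodule ℚ (Fin n → ℚ)) (hW : W ≠ ⊤) (h : ℤ) (hh : h ≠ 0)
    (S : Finset ℕ) (hS : ∀ z ∈ S, vec n z h ∈ W) : S.card ≤ n := by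
  classical
  obtain ⟨f, hf, hWf⟩ := Submodule.exists_le_ker_of_lt_top W (lt_top_iff_ne_top.2 hW)
  set p : Polynomial ℚ := ∑ j : Fin n, Polynomial.C (f (Pi.single j 1)) * Polynomial.X ^ (j.val + 1)
    with hp
  have hfv : ∀ v : Fin n → ℚ, f v = ∑ j, f (Pi.single j 1) * v j := by
    intro v
    conv_lhs => rw [← Finset.univ_sum_single v]
    rw [map_sum]
    refine sum_congr rfl fun j _ => ?_
    have : (Pi.single j (v j) : Fin n → ℚ) = v j • Pi.single j 1 := by
      rw [← Pi.single_smul]; simp
    rw [this, map_smul, smul_eq_mul, mul_comm]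
  have hp0 : p.eval 0 = 0 := by simp [hp, Polynomial.eval_finsetSum]
  have hpd : p.natDegree ≤ n := by
    rw [hp]
    refine Polynomial.natDegree_sum_le_of_forall_le _ _ fun j _ => ?_
    exact (Polynomial.natDegree_C_mul_X_pow_le _ _).trans j.2
  have hpne : p ≠ 0 := by
    intro h0
    apply hf
    have hc : ∀ j, f (Pi.single j 1) = 0 := by
      intro j
      have := congrArg (fun q => q.coeff (j.val + 1)) h0
      simp only [hp, Polynomial.finsetSum_coeff, Polynomial.coeff_C_mul, Polynomial.coeff_X_pow,
        Polynomial.coeff_zero] at this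
      rw [sum_eq_single j] at this
      · simpa using this
      · intro i _ hij
        rw [if_neg, mul_zero]
        intro h1
        exact hij (Fin.ext (by omega))
      · simp
    ext v
    simp [hc]
  set Q : Polynomial ℚ := p.comp (Polynomial.X + Polynomial.C (h : ℚ)) - p with hQ
  have hQne : Q ≠ 0 := by
    intro h0
    apply hpne
    have hm : ∀ m : ℕ, p.eval ((m : ℚ) * h) = 0 := by
      intro m
      induction m with
      | zero => simpa using hp0
      | succ m ih =>
        have h1 := congrArg (Polynomial.eval ((m : ℚ) * h)) (sub_eq_zero.1 h0)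
        rw [Polynomial.eval_comp, Polynomial.eval_add, Polynomial.eval_X, Polynomial.eval_C, ih] at h1
        rw [← h1]
        congr 1
        push_cast
        ring
    apply Polynomial.eq_zero_of_infinite_isRoot
    refine Set.Infinite.mono (s := Set.range fun m : ℕ => (m : ℚ) * h) ?_ ?_
    · rintro _ ⟨m, rfl⟩
      exact hm m
    · apply Set.infinite_range_of_injective
      intro a b hab
      have h2 : (h : ℚ) ≠ 0 := by exact_mod_cast hh
      exact_mod_cast mul_right_cancel₀ h2 hab
  have hQd : Q.natDegree ≤ n := by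
    refine (Polynomial.natDegree_sub_le _ _).trans (max_le ?_ hpd)
    refine Polynomial.natDegree_comp_le.trans ?_
    rw [Polynomial.natDegree_X_add_C, mul_one]
    exact hpd
  have hroot : ∀ z ∈ S, (z : ℚ) ∈ Q.roots.toFinset := by
    intro z hz
    rw [Multiset.mem_toFinset, Polynomial.mem_roots hQne, Polynomial.IsRoot.def, hQ,
      Polynomial.eval_sub, Polynomial.eval_comp, Polynomial.eval_add, Polynomial.eval_X,
      Polynomial.eval_C]
    have h1 := LinearMap.mem_ker.1 (hWf (hS z hz))
    rw [hfv] at h1
    rw [← h1, hp, Polynomial.eval_finsetSum, Polynomial.eval_finsetSum, ← sum_sub_distrib]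
    refine sum_congr rfl fun j _ => ?_
    simp [vec, mul_sub]
  calc S.card = (S.image (fun z : ℕ => (z : ℚ))).card :=
        (card_image_of_injective _ Nat.cast_injective).symm
    _ ≤ Q.roots.toFinset.card := by
        apply card_le_card
        intro q hq
        obtain ⟨z, hz, rfl⟩ := mem_image.1 hq
        exact hroot z hz
    _ ≤ Q.roots.card := Multiset.toFinset_card_le _
    _ ≤ Q.natDegree := Polynomial.card_roots' _
    _ ≤ n := hQd

theorem coeff_one_pow (a w : ℚ) (p : ℕ) :
    ((Polynomial.C a + Polynomial.C w * Polynomial.X) ^ (p + 1)).coeff 1 = (p + 1) * a ^ p * w := by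
  have h := Polynomial.coeff_derivative
    ((Polynomial.C a + Polynomial.C w * Polynomial.X) ^ (p + 1)) 0
  rw [zero_add, Nat.cast_zero, zero_add, mul_one] at h
  rw [← h, Polynomial.coeff_zero_eq_eval_zero, Polynomial.derivative_pow]
  simp

open scoped Classical in
/-- tuples with entries fixed off `T` and `∑_{i∈T} ((x_i + h_i)^j - x_i^j) = 0` for `2 ≤ j ≤ n+1` -/
noncomputable def SS {s : ℕ} (n N : ℕ) (T : Finset (Fin s)) (h : Fin s → ℤ) (u : Fin s → ℕ) :
    Finset (Fin s → ℕ) :=
  (Fintype.piFinset fun _ : Fin s => Icc 1 N).filter fun x =>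
    (∀ i, i ∉ T → x i = u i) ∧
    ∀ j : Fin n, ∑ i ∈ T, (((x i : ℤ) + h i) ^ (j.val + 2) - (x i : ℤ) ^ (j.val + 2)) = 0

open scoped Classical in
/-- the part of `SS` with the basis `b` -/
noncomputable def SB {s : ℕ} (n N : ℕ) (T : Finset (Fin s)) (h : Fin s → ℤ) (u : Fin s → ℕ)
    (b : Finset (Fin s)) : Finset (Fin s → ℕ) :=
  (SS n N T h u).filter fun x =>
    LinearIndepOn ℚ (fun i => vec n (x i) (h i)) (b : Set (Fin s)) ∧
    ∀ i ∈ T, vec n (x i) (h i) ∈ Submodule.span ℚ ((fun i => vec n (x i) (h i)) '' (b : Set (Fin s)))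

open scoped Classical in
theorem deg_count {s : ℕ} (n N : ℕ) (hN : 1 ≤ N) (T : Finset (Fin s)) (h : Fin s → ℤ)
    (hh : ∀ i ∈ T, h i ≠ 0) (u : Fin s → ℕ) (b : Finset (Fin s)) (hb : b.card < n) :
    (SB n N T h u b).card ≤ n ^ s * N ^ (n - 1) := by
  have himg : ((SB n N T h u b).image fun x => fun i => if i ∈ b then x i else 0).card ≤
      N ^ (n - 1) := by
    calc _ ≤ (Fintype.piFinset fun i : Fin s => if i ∈ b then Icc 1 N else {0}).card := by
          apply card_le_card
          intro y hy
          obtain ⟨x, hx, rfl⟩ := mem_image.1 hy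
          rw [SB, SS, mem_filter, mem_filter, Fintype.mem_piFinset] at hx
          rw [Fintype.mem_piFinset]
          intro i
          by_cases hi : i ∈ b
          · simp only [if_pos hi]; exact hx.1.1 i
          · simp only [if_neg hi]; simp
      _ = N ^ b.card := by
          rw [Fintype.card_piFinset]
          rw [← prod_subset (subset_univ b)]
          · rw [prod_congr rfl (g := fun _ => N)]
            · simp
            · intro i hi; simp [hi]
          · intro i _ hi; simp [hi]
      _ ≤ N ^ (n - 1) := Nat.pow_le_pow_right hN (by omega)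
  refine (card_le_mul_card_image (SB n N T h u b) (n ^ s) ?_).trans (Nat.mul_le_mul_left _ himg)
  intro y hy
  obtain ⟨x0, hx0, hy0⟩ := mem_image.1 hy
  let W : Submodule ℚ (Fin n → ℚ) :=
    Submodule.span ℚ ((fun i => vec n (x0 i) (h i)) '' (b : Set (Fin s)))
  have hW : W ≠ ⊤ := by
    intro htop
    have h1 : Module.finrank ℚ W ≤ b.card := by
      have h2 := finrank_span_finset_le_card (R := ℚ) (b.image fun i => vec n (x0 i) (h i))
      rw [coe_image] at h2
      exact h2.trans card_image_le
    rw [htop, finrank_top, Module.finrank_fin_fun] at h1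
    omega
  calc _ ≤ (Fintype.piFinset fun i : Fin s => if i ∈ T then
        (Icc 1 N).filter (fun z : ℕ => vec n (z : ℤ) (h i) ∈ W) else {u i}).card := by
        apply card_le_card
        intro x hx
        rw [mem_filter, SB, SS, mem_filter, mem_filter, Fintype.mem_piFinset] at hx
        obtain ⟨⟨⟨hx1, hx2, hx3⟩, hx4, hx5⟩, hx6⟩ := hx
        rw [Fintype.mem_piFinset]
        intro i
        by_cases hi : i ∈ T
        · simp only [if_pos hi, mem_filter]
          refine ⟨hx1 i, ?_⟩
          have hW' : W = Submodule.span ℚ ((fun i => vec n (x i) (h i)) '' (b : Set (Fin s))) := by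
            refine congrArg (Submodule.span ℚ) ?_
            apply Set.image_congr
            intro l hl
            have := congrFun (hx6.trans hy0.symm) l
            simp only [mem_coe.1 hl, if_true] at this
            rw [this]
          rw [hW']
          exact hx5 i hi
        · simp only [if_neg hi, mem_singleton]
          exact hx2 i hi
    _ = ∏ i : Fin s, (if i ∈ T then
        (Icc 1 N).filter (fun z : ℕ => vec n (z : ℤ) (h i) ∈ W) else {u i}).card := Fintype.card_piFinset _
    _ ≤ ∏ _i : Fin s, n := by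
        apply prod_le_prod' 
        intro i _
        by_cases hi : i ∈ T
        · rw [if_pos hi]
          exact few_in_subspace W hW (h i) (hh i hi) _ fun z hz => (mem_filter.1 hz).2
        · rw [if_neg hi, card_singleton]
          omega
    _ = n ^ s := by simp

theorem sub_term {n : ℕ} (z w : Fin n → ℚ) (l : Fin n) (a : ℚ) (p : ℕ) :
    (sub z w ((MvPolynomial.X l + MvPolynomial.C a) ^ (p + 2) - MvPolynomial.X l ^ (p + 2))).coeff 1 =
      (p + 2) * (w l * ((z l + a) ^ (p + 1) - z l ^ (p + 1))) := by
  have e1 : sub z w ((MvPolynomial.X l + MvPolynomial.C a) ^ (p + 2) - MvPolynomial.X l ^ (p + 2)) =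
      (Polynomial.C (z l + a) + Polynomial.C (w l) * Polynomial.X) ^ (p + 1 + 1) -
      (Polynomial.C (z l) + Polynomial.C (w l) * Polynomial.X) ^ (p + 1 + 1) := by
    simp only [sub, map_sub, map_pow, map_add, MvPolynomial.aeval_X, MvPolynomial.aeval_C,
      Polynomial.algebraMap_eq]
    ring
  rw [e1, Polynomial.coeff_sub, coeff_one_pow, coeff_one_pow]
  push_cast
  ring

open scoped Classical in
theorem nons_count {s : ℕ} (n N : ℕ) (T : Finset (Fin s)) (h : Fin s → ℤ)
    (u : Fin s → ℕ) (b : Finset (Fin s)) (hbT : b ⊆ T) (hb : b.card = n) :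
    (SB n N T h u b).card ≤ (n * (n + 1) + 1) ^ n * N ^ (T.card - n) := by
  have himg : ((SB n N T h u b).image fun x => fun i => if i ∈ b then 0 else x i).card ≤
      N ^ (T.card - n) := by
    calc _ ≤ (Fintype.piFinset fun i : Fin s => if i ∈ b then {0} else if i ∈ T then Icc 1 N
          else {u i}).card := by
          apply card_le_card
          intro y hy
          obtain ⟨x, hx, rfl⟩ := mem_image.1 hy
          rw [SB, SS, mem_filter, mem_filter, Fintype.mem_piFinset] at hx
          rw [Fintype.mem_piFinset]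
          intro i
          by_cases hi : i ∈ b
          · simp only [if_pos hi]; simp
          · by_cases hiT : i ∈ T
            · simp only [if_neg hi, if_pos hiT]; exact hx.1.1 i
            · simp only [if_neg hi, if_neg hiT, mem_singleton]; exact hx.1.2.1 i hiT
      _ = N ^ (T.card - n) := by
          rw [Fintype.card_piFinset]
          rw [← prod_subset (subset_univ (T \ b))]
          · rw [prod_congr rfl (g := fun _ => N)]
            · rw [prod_const, card_sdiff_of_subset hbT, hb]
            · intro i hi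
              rw [mem_sdiff] at hi
              simp [hi.1, hi.2]
          · intro i _ hi
            rw [mem_sdiff, not_and, not_not] at hi
            by_cases hib : i ∈ b
            · simp [hib]
            · have : i ∉ T := fun h => hib (hi h)
              simp [hib, this]
  refine (card_le_mul_card_image (SB n N T h u b) ((n * (n + 1) + 1) ^ n) ?_).trans
    (Nat.mul_le_mul_left _ himg)
  intro y hy
  obtain ⟨x0, hx0, hy0⟩ := mem_image.1 hy
  let e : Fin n ≃ {i // i ∈ b} := (b.equivFinOfCardEq hb).symm
  have hsum : ∀ g : Fin s → ℚ, ∑ i ∈ T, g i = ∑ l : Fin n, g (e l) + ∑ i ∈ T \ b, g i := by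
    intro g
    rw [← sum_sdiff hbT, add_comm]
    congr 1
    rw [← sum_coe_sort b g]
    exact (Equiv.sum_comp e (fun i : {i // i ∈ b} => g i)).symm
  let F : Fin n → MvPolynomial (Fin n) ℚ := fun j =>
    ∑ l : Fin n, ((MvPolynomial.X l + MvPolynomial.C ((h (e l) : ℤ) : ℚ)) ^ (j.val + 2) -
      MvPolynomial.X l ^ (j.val + 2)) +
    MvPolynomial.C (∑ i ∈ T \ b, (((x0 i : ℚ) + h i) ^ (j.val + 2) - (x0 i : ℚ) ^ (j.val + 2)))
  let φ : (Fin s → ℕ) → (Fin n → ℚ) := fun x l => (x (e l) : ℚ)
  set A := (SB n N T h u b).filter fun x => (fun i => if i ∈ b then 0 else x i) = y with hA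
  have hoff : ∀ x ∈ A, ∀ i, i ∉ b → x i = x0 i := by
    intro x hx i hi
    have h1 := congrFun ((mem_filter.1 hx).2.trans hy0.symm) i
    simpa only [if_neg hi] using h1
  have hinj : Set.InjOn φ (A : Set (Fin s → ℕ)) := by
    intro x hx x' hx' hxx
    funext i
    by_cases hi : i ∈ b
    · have h1 := congrFun hxx (e.symm ⟨i, hi⟩)
      simp only [φ, Equiv.apply_symm_apply, Nat.cast_inj] at h1
      exact h1
    · rw [hoff x hx i hi, hoff x' hx' i hi]
  rw [← card_image_of_injOn hinj]
  refine bezout n (n + 1) F ?_ _ ?_ ?_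
  · intro i j
    refine (MvPolynomial.degreeOf_add_le _ _ _).trans (max_le ?_ (by rw [MvPolynomial.degreeOf_C]; omega))
    refine (MvPolynomial.degreeOf_sum_le _ _ _).trans (Finset.sup_le fun l _ => ?_)
    have hX : (MvPolynomial.X l : MvPolynomial (Fin n) ℚ).degreeOf i ≤ 1 := by
      rw [MvPolynomial.degreeOf_X]; split_ifs <;> omega
    refine (MvPolynomial.degreeOf_sub_le _ _ _).trans (max_le ?_ ?_)
    · refine (MvPolynomial.degreeOf_pow_le _ _ _).trans ?_
      have : (MvPolynomial.X l + MvPolynomial.C ((h (e l) : ℤ) : ℚ) : MvPolynomial (Fin n) ℚ).degreeOf i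
          ≤ 1 := (MvPolynomial.degreeOf_add_le _ _ _).trans
            (max_le hX (by rw [MvPolynomial.degreeOf_C]; omega))
      calc (j.val + 2) * _ ≤ (j.val + 2) * 1 := Nat.mul_le_mul_left _ this
        _ ≤ n + 1 := by omega
    · refine (MvPolynomial.degreeOf_pow_le _ _ _).trans ?_
      calc (j.val + 2) * _ ≤ (j.val + 2) * 1 := Nat.mul_le_mul_left _ hX
        _ ≤ n + 1 := by omega
  · intro z hz j
    obtain ⟨x, hx, rfl⟩ := mem_image.1 hz
    have hx1 := (mem_filter.1 hx).1
    rw [SB, SS, mem_filter, mem_filter] at hx1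
    have h1 := hx1.1.2.2 j
    have h2 : ∑ i ∈ T, (((x i : ℚ) + h i) ^ (j.val + 2) - (x i : ℚ) ^ (j.val + 2)) = 0 := by
      exact_mod_cast h1
    rw [hsum] at h2
    rw [← h2]
    simp only [F, map_add, map_sum, map_sub, map_pow, MvPolynomial.eval_X, MvPolynomial.eval_C, φ]
    congr 1
    refine sum_congr rfl fun i hi => ?_
    rw [hoff x hx i (mem_sdiff.1 hi).2]
  · intro z hz t
    obtain ⟨x, hx, rfl⟩ := mem_image.1 hz
    have hx1 := (mem_filter.1 hx).1
    rw [SB, mem_filter] at hx1
    have hli := hx1.2.1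
    have hli2 : LinearIndependent ℚ (fun l : Fin n => vec n (x (e l)) (h (e l))) := by
      have h3 := hli.linearIndependent
      exact (linearIndependent_equiv' e rfl).2 h3
    have hspan := hli2.span_eq_top_of_card_eq_finrank' (by simp)
    have hmem : (fun j : Fin n => t j / ((j.val : ℚ) + 2)) ∈
        Submodule.span ℚ (Set.range fun l : Fin n => vec n (x (e l)) (h (e l))) := by
      rw [hspan]; trivial
    rw [Submodule.mem_span_range_iff_exists_fun] at hmem
    obtain ⟨w, hw⟩ := hmem
    refine ⟨w, fun j => ?_⟩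
    have h4 := congrFun hw j
    simp only [Finset.sum_apply, Pi.smul_apply, smul_eq_mul, vec] at h4
    have h5 : t j = ((j.val : ℚ) + 2) * (t j / ((j.val : ℚ) + 2)) := by
      field_simp
    rw [h5, ← h4, mul_sum]
    simp only [F, map_add, map_sum, Polynomial.coeff_add, Polynomial.finsetSum_coeff]
    rw [sum_congr rfl fun l _ => sub_term (φ x) w l _ j.val]
    have h6 : ∀ q : ℚ, (sub (φ x) w (MvPolynomial.C q)).coeff 1 = 0 := by
      intro q
      simp [sub]
    rw [sum_eq_zero (s := T \ b) (fun i _ => h6 _), add_zero]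
    simp [φ]

open scoped Classical in
theorem ss_count {s : ℕ} (n N : ℕ) (hN : 1 ≤ N) (T : Finset (Fin s)) (h : Fin s → ℤ)
    (hh : ∀ i ∈ T, h i ≠ 0) (u : Fin s → ℕ) :
    (SS n N T h u).card ≤ 2 ^ s * (n ^ s * N ^ (n - 1) + (n * (n + 1) + 1) ^ n * N ^ (T.card - n)) := by
  have hsub : SS n N T h u ⊆ T.powerset.biUnion fun b => SB n N T h u b := by
    intro x hx
    obtain ⟨b, hbT, -, hspan, hli⟩ := exists_linearIndepOn_extension (K := ℚ)
      (v := fun i => vec n (x i) (h i)) (linearIndepOn_empty ℚ _) (Set.empty_subset (T : Set (Fin s)))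
    rw [mem_biUnion]
    refine ⟨b.toFinset, ?_, ?_⟩
    · rw [mem_powerset, ← coe_subset, Set.coe_toFinset]
      exact hbT
    · rw [SB, mem_filter, Set.coe_toFinset]
      exact ⟨hx, hli, fun i hi => hspan ⟨i, hi, rfl⟩⟩
  calc (SS n N T h u).card ≤ (T.powerset.biUnion fun b => SB n N T h u b).card := card_le_card hsub
    _ ≤ ∑ b ∈ T.powerset, (SB n N T h u b).card := card_biUnion_le
    _ ≤ ∑ b ∈ T.powerset, (n ^ s * N ^ (n - 1) + (n * (n + 1) + 1) ^ n * N ^ (T.card - n)) := by
        apply sum_le_sum
        intro b hb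
        rw [mem_powerset] at hb
        rcases lt_trichotomy b.card n with h1 | h1 | h1
        · exact (deg_count n N hN T h hh u b h1).trans (Nat.le_add_right _ _)
        · exact (nons_count n N T h u b hb h1).trans (Nat.le_add_left _ _)
        · have : SB n N T h u b = ∅ := by
            rw [eq_empty_iff_forall_notMem]
            intro x hx
            rw [SB, mem_filter] at hx
            have h3 := hx.2.1.linearIndependent.fintype_card_le_finrank
            simp at h3
            omega
          rw [this]; simp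
    _ = 2 ^ T.card * (n ^ s * N ^ (n - 1) + (n * (n + 1) + 1) ^ n * N ^ (T.card - n)) := by
        rw [sum_const, card_powerset, smul_eq_mul]
    _ ≤ _ := by
        apply Nat.mul_le_mul_right
        apply Nat.pow_le_pow_right (by norm_num)
        exact (card_le_univ T).trans (by simp)

end Pool.Agent.R470.VM
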