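import Pool.Agent.R470.VM.Core

set_option autoImplicit false

/-! Systems `∑ (a_v (z_v + h_v)^j - b_v z_v^j) = 0`, `1 ≤ j ≤ n + 1`. -/

namespace Pool.Agent.R470.VM

open Finset

/-- the column of the derivatives for a variable of type `(a, b, h)` -/
def col (n : ℕ) (a b : ℚ) (h z : ℤ) : Fin (n + 1) → ℚ :=
  fun j => a * ((z : ℚ) + h) ^ j.val - b * (z : ℚ) ^ j.val

theorem few_in_subspace2 {n : ℕ} (W : Submodule ℚ (Fin (n + 1) → ℚ)) (hW : W ≠ ⊤)
    (w0 : Fin (n + 1) → ℚ) (hw0 : w0 ∈ W) (hw1 : w0 0 ≠ 0) (a b : ℚ) (h : ℤ)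
    (hab : (a ≠ b ∧ h = 0) ∨ (a = 1 ∧ b = 1 ∧ h ≠ 0))
    (S : Finset ℕ) (hS : ∀ z ∈ S, col n a b h (z : ℤ) ∈ W) : S.card ≤ n + 1 := by
  classical
  obtain ⟨f, hf, hWf⟩ := Submodule.exists_le_ker_of_lt_top W (lt_top_iff_ne_top.2 hW)
  set p : Polynomial ℚ := ∑ j : Fin (n + 1), Polynomial.C (f (Pi.single j 1)) * Polynomial.X ^ j.val
    with hp
  have hfv : ∀ v : Fin (n + 1) → ℚ, f v = ∑ j, f (Pi.single j 1) * v j := by
    intro v
    conv_lhs => rw [← Finset.univ_sum_single v]
    rw [map_sum]
    refine sum_congr rfl fun j _ => ?_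
    have : (Pi.single j (v j) : Fin (n + 1) → ℚ) = v j • Pi.single j 1 := by
      rw [← Pi.single_smul]; simp
    rw [this, map_smul, smul_eq_mul, mul_comm]
  have hpc : ∀ j : Fin (n + 1), p.coeff j.val = f (Pi.single j 1) := by
    intro j
    simp only [hp, Polynomial.finsetSum_coeff, Polynomial.coeff_C_mul, Polynomial.coeff_X_pow]
    rw [sum_eq_single j]
    · simp
    · intro i _ hij
      rw [if_neg, mul_zero]
      intro h1
      exact hij (Fin.ext h1.symm)
    · simp
  have hpd : p.natDegree ≤ n + 1 := by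
    rw [hp]
    refine Polynomial.natDegree_sum_le_of_forall_le _ _ fun j _ => ?_
    exact (Polynomial.natDegree_C_mul_X_pow_le _ _).trans j.2.le
  have hpne : p ≠ 0 := by
    intro h0
    apply hf
    refine LinearMap.ext fun v => ?_
    rw [hfv, LinearMap.zero_apply]
    refine sum_eq_zero fun j _ => ?_
    rw [← hpc, h0]; simp
  set Q : Polynomial ℚ := Polynomial.C a * p.comp (Polynomial.X + Polynomial.C (h : ℚ)) -
    Polynomial.C b * p with hQ
  have hQne : Q ≠ 0 := by
    rcases hab with ⟨hab, h0⟩ | ⟨ha, hb, hh⟩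
    · have : Q = Polynomial.C (a - b) * p := by
        rw [hQ, h0]
        simp [sub_mul]
      rw [this]
      exact mul_ne_zero (by simpa [sub_eq_zero] using hab) hpne
    · intro h0
      rw [hQ, ha, hb, map_one, one_mul, one_mul] at h0
      have hm : ∀ m : ℕ, p.eval ((m : ℚ) * h) = p.eval 0 := by
        intro m
        induction m with
        | zero => simp
        | succ m ih =>
          have h1 := congrArg (Polynomial.eval ((m : ℚ) * h)) (sub_eq_zero.1 h0)
          rw [Polynomial.eval_comp, Polynomial.eval_add, Polynomial.eval_X, Polynomial.eval_C, ih] at h1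
          rw [← h1]
          congr 1
          push_cast
          ring
      have hconst : p - Polynomial.C (p.eval 0) = 0 := by
        apply Polynomial.eq_zero_of_infinite_isRoot
        refine Set.Infinite.mono (s := Set.range fun m : ℕ => (m : ℚ) * h) ?_ ?_
        · rintro _ ⟨m, rfl⟩
          simp only [Set.mem_ofPred_eq, Polynomial.IsRoot.def, Polynomial.eval_sub, Polynomial.eval_C]
          rw [hm m, sub_self]
        · apply Set.infinite_range_of_injective
          intro a b hab
          have h2 : (h : ℚ) ≠ 0 := by exact_mod_cast hh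
          exact_mod_cast mul_right_cancel₀ h2 hab
      have hpC := sub_eq_zero.1 hconst
      have h3 := LinearMap.mem_ker.1 (hWf hw0)
      rw [hfv, sum_eq_single 0] at h3
      · have h4 : f (Pi.single 0 1) = 0 := (mul_eq_zero.1 h3).resolve_right hw1
        apply hpne
        rw [hpC]
        have h5 := hpc 0
        rw [h4, Fin.val_zero, Polynomial.coeff_zero_eq_eval_zero] at h5
        rw [h5, map_zero]
      · intro j _ hj
        rw [← hpc j, hpC, Polynomial.coeff_C, if_neg, zero_mul]
        intro h6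
        exact hj (Fin.ext h6)
      · simp
  have hQd : Q.natDegree ≤ n + 1 := by
    refine (Polynomial.natDegree_sub_le _ _).trans (max_le ?_ ?_)
    · refine (Polynomial.natDegree_C_mul_le _ _).trans ?_
      refine Polynomial.natDegree_comp_le.trans ?_
      rw [Polynomial.natDegree_X_add_C, mul_one]
      exact hpd
    · exact (Polynomial.natDegree_C_mul_le _ _).trans hpd
  have hroot : ∀ z ∈ S, (z : ℚ) ∈ Q.roots.toFinset := by
    intro z hz
    rw [Multiset.mem_toFinset, Polynomial.mem_roots hQne, Polynomial.IsRoot.def, hQ,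
      Polynomial.eval_sub, Polynomial.eval_mul, Polynomial.eval_mul, Polynomial.eval_comp,
      Polynomial.eval_add, Polynomial.eval_X, Polynomial.eval_C, Polynomial.eval_C, Polynomial.eval_C]
    have h1 := LinearMap.mem_ker.1 (hWf (hS z hz))
    rw [hfv] at h1
    rw [← h1, hp, Polynomial.eval_finsetSum, Polynomial.eval_finsetSum, mul_sum, mul_sum,
      ← sum_sub_distrib]
    refine sum_congr rfl fun j _ => ?_
    simp only [col, Polynomial.eval_mul, Polynomial.eval_C, Polynomial.eval_pow, Polynomial.eval_X]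
    push_cast
    ring
  calc S.card = (S.image (fun z : ℕ => (z : ℚ))).card :=
        (card_image_of_injective _ Nat.cast_injective).symm
    _ ≤ Q.roots.toFinset.card := by
        apply card_le_card
        intro q hq
        obtain ⟨z, hz, rfl⟩ := mem_image.1 hq
        exact hroot z hz
    _ ≤ Q.roots.card := Multiset.toFinset_card_le _
    _ ≤ Q.natDegree := Polynomial.card_roots' _
    _ ≤ n + 1 := hQd

section count

variable {ι : Type} [Fintype ι] [DecidableEq ι]

open scoped Classical in
/-- solutions of the system with entries in `[1,N]` on `V` and fixed entries off `V` -/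
noncomputable def S2 (n N : ℕ) (V : Finset ι) (a b : ι → ℚ) (h : ι → ℤ) (u : ι → ℕ) :
    Finset (ι → ℕ) :=
  (Fintype.piFinset fun v : ι => if v ∈ V then Icc 1 N else {u v}).filter fun z =>
    ∀ j : Fin (n + 1), ∑ v ∈ V, (a v * ((z v : ℚ) + h v) ^ (j.val + 1) - b v * (z v : ℚ) ^ (j.val + 1)) = 0

open scoped Classical in
/-- the part with the basis `B` -/
noncomputable def B2 (n N : ℕ) (V : Finset ι) (a b : ι → ℚ) (h : ι → ℤ) (u : ι → ℕ) (B : Finset ι) :
    Finset (ι → ℕ) :=
  (S2 n N V a b h u).filter fun z =>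
    LinearIndepOn ℚ (fun v => col n (a v) (b v) (h v) (z v)) (B : Set ι) ∧
    ∀ v ∈ V, col n (a v) (b v) (h v) (z v) ∈
      Submodule.span ℚ ((fun v => col n (a v) (b v) (h v) (z v)) '' (B : Set ι))

open scoped Classical in
theorem deg_count2 (n N : ℕ) (hN : 1 ≤ N) (V : Finset ι) (a b : ι → ℚ) (h : ι → ℤ) (u : ι → ℕ)
    (hab : ∀ v ∈ V, (a v ≠ b v ∧ h v = 0) ∨ (a v = 1 ∧ b v = 1 ∧ h v ≠ 0))
    (v0 : ι) (hv0 : v0 ∈ V) (hv1 : a v0 ≠ b v0)
    (B : Finset ι) (hBV : B ⊆ V) (hB : B.card < n + 1) :
    (B2 n N V a b h u B).card ≤ (n + 1) ^ (Fintype.card ι) * N ^ n := by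
  have himg : ((B2 n N V a b h u B).image fun x => fun i => if i ∈ B then x i else 0).card ≤
      N ^ n := by
    calc _ ≤ (Fintype.piFinset fun i : ι => if i ∈ B then Icc 1 N else {0}).card := by
          apply card_le_card
          intro y hy
          obtain ⟨x, hx, rfl⟩ := mem_image.1 hy
          rw [B2, S2, mem_filter, mem_filter, Fintype.mem_piFinset] at hx
          rw [Fintype.mem_piFinset]
          intro i
          by_cases hi : i ∈ B
          · have := hx.1.1 i
            rw [if_pos (hBV hi)] at this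
            simp only [if_pos hi]; exact this
          · simp only [if_neg hi]; simp
      _ = N ^ B.card := by
          rw [Fintype.card_piFinset]
          rw [← prod_subset (subset_univ B)]
          · rw [prod_congr rfl (g := fun _ => N)]
            · simp
            · intro i hi; simp [hi]
          · intro i _ hi; simp [hi]
      _ ≤ N ^ n := Nat.pow_le_pow_right hN (by omega)
  refine (card_le_mul_card_image (B2 n N V a b h u B) ((n + 1) ^ (Fintype.card ι)) ?_).trans
    (Nat.mul_le_mul_left _ himg)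
  intro y hy
  obtain ⟨x0, hx0, hy0⟩ := mem_image.1 hy
  let W : Submodule ℚ (Fin (n + 1) → ℚ) :=
    Submodule.span ℚ ((fun v => col n (a v) (b v) (h v) (x0 v)) '' (B : Set ι))
  have hW : W ≠ ⊤ := by
    intro htop
    have h1 : Module.finrank ℚ W ≤ B.card := by
      have h2 := finrank_span_finset_le_card (R := ℚ) (B.image fun v => col n (a v) (b v) (h v) (x0 v))
      rw [coe_image] at h2
      exact h2.trans card_image_le
    rw [htop, finrank_top, Module.finrank_fin_fun] at h1
    omega
  have hw0 : col n (a v0) (b v0) (h v0) (x0 v0) ∈ W := by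
    rw [B2, mem_filter] at hx0
    exact hx0.2.2 v0 hv0
  have hw1 : col n (a v0) (b v0) (h v0) (x0 v0) 0 ≠ 0 := by
    simpa [col, sub_eq_zero] using hv1
  calc _ ≤ (Fintype.piFinset fun i : ι => if i ∈ V then
        (Icc 1 N).filter (fun z : ℕ => col n (a i) (b i) (h i) (z : ℤ) ∈ W) else {u i}).card := by
        apply card_le_card
        intro x hx
        rw [mem_filter, B2, S2, mem_filter, mem_filter, Fintype.mem_piFinset] at hx
        obtain ⟨⟨⟨hx1, hx3⟩, hx4, hx5⟩, hx6⟩ := hx
        rw [Fintype.mem_piFinset]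
        intro i
        have hx1i := hx1 i
        by_cases hi : i ∈ V
        · simp only [if_pos hi, mem_filter] at hx1i ⊢
          refine ⟨hx1i, ?_⟩
          have hW' : W = Submodule.span ℚ ((fun v => col n (a v) (b v) (h v) (x v)) '' (B : Set ι)) := by
            refine congrArg (Submodule.span ℚ) ?_
            apply Set.image_congr
            intro l hl
            have := congrFun (hx6.trans hy0.symm) l
            simp only [mem_coe.1 hl, if_true] at this
            rw [this]
          rw [hW']
          exact hx5 i hi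
        · simp only [if_neg hi] at hx1i ⊢
          exact hx1i
    _ = ∏ i : ι, (if i ∈ V then
        (Icc 1 N).filter (fun z : ℕ => col n (a i) (b i) (h i) (z : ℤ) ∈ W) else {u i}).card :=
        Fintype.card_piFinset _
    _ ≤ ∏ _i : ι, (n + 1) := by
        apply prod_le_prod'
        intro i _
        by_cases hi : i ∈ V
        · rw [if_pos hi]
          exact few_in_subspace2 W hW _ hw0 hw1 _ _ (h i) (hab i hi) _ fun z hz => (mem_filter.1 hz).2
        · rw [if_neg hi, card_singleton]
          omega
    _ = (n + 1) ^ (Fintype.card ι) := by simp [card_univ]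

theorem sub_term2 {n : ℕ} (z w : Fin n → ℚ) (l : Fin n) (a b h : ℚ) (p : ℕ) :
    (sub z w (MvPolynomial.C a * (MvPolynomial.X l + MvPolynomial.C h) ^ (p + 1) -
      MvPolynomial.C b * MvPolynomial.X l ^ (p + 1))).coeff 1 =
      (p + 1) * (w l * (a * (z l + h) ^ p - b * z l ^ p)) := by
  have e1 : sub z w (MvPolynomial.C a * (MvPolynomial.X l + MvPolynomial.C h) ^ (p + 1) -
      MvPolynomial.C b * MvPolynomial.X l ^ (p + 1)) =
      Polynomial.C a * (Polynomial.C (z l + h) + Polynomial.C (w l) * Polynomial.X) ^ (p + 1) -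
      Polynomial.C b * (Polynomial.C (z l) + Polynomial.C (w l) * Polynomial.X) ^ (p + 1) := by
    simp only [sub, map_sub, map_mul, map_pow, map_add, MvPolynomial.aeval_X, MvPolynomial.aeval_C,
      Polynomial.algebraMap_eq]
    ring
  rw [e1, Polynomial.coeff_sub, Polynomial.coeff_C_mul, Polynomial.coeff_C_mul, coeff_one_pow,
    coeff_one_pow]
  ring

open scoped Classical in
theorem nons_count2 (n N : ℕ) (V : Finset ι) (a b : ι → ℚ) (h : ι → ℤ) (u : ι → ℕ)
    (B : Finset ι) (hBV : B ⊆ V) (hB : B.card = n + 1) :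
    (B2 n N V a b h u B).card ≤ ((n + 1) * (n + 1) + 1) ^ (n + 1) * N ^ (V.card - (n + 1)) := by
  have himg : ((B2 n N V a b h u B).image fun x => fun i => if i ∈ B then 0 else x i).card ≤
      N ^ (V.card - (n + 1)) := by
    calc _ ≤ (Fintype.piFinset fun i : ι => if i ∈ B then {0} else if i ∈ V then Icc 1 N
          else {u i}).card := by
          apply card_le_card
          intro y hy
          obtain ⟨x, hx, rfl⟩ := mem_image.1 hy
          rw [B2, S2, mem_filter, mem_filter, Fintype.mem_piFinset] at hx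
          rw [Fintype.mem_piFinset]
          intro i
          have hxi := hx.1.1 i
          by_cases hi : i ∈ B
          · simp only [if_pos hi]; simp
          · simp only [if_neg hi]; exact hxi
      _ = N ^ (V.card - (n + 1)) := by
          rw [Fintype.card_piFinset]
          rw [← prod_subset (subset_univ (V \ B))]
          · rw [prod_congr rfl (g := fun _ => N)]
            · rw [prod_const, card_sdiff_of_subset hBV, hB]
            · intro i hi
              rw [mem_sdiff] at hi
              simp [hi.1, hi.2]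
          · intro i _ hi
            rw [mem_sdiff, not_and, not_not] at hi
            by_cases hib : i ∈ B
            · simp [hib]
            · have : i ∉ V := fun h => hib (hi h)
              simp [hib, this]
  refine (card_le_mul_card_image (B2 n N V a b h u B) (((n + 1) * (n + 1) + 1) ^ (n + 1)) ?_).trans
    (Nat.mul_le_mul_left _ himg)
  intro y hy
  obtain ⟨x0, hx0, hy0⟩ := mem_image.1 hy
  let e : Fin (n + 1) ≃ {i // i ∈ B} := (B.equivFinOfCardEq hB).symm
  have hsum : ∀ g : ι → ℚ, ∑ i ∈ V, g i = ∑ l : Fin (n + 1), g (e l) + ∑ i ∈ V \ B, g i := by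
    intro g
    rw [← sum_sdiff hBV, add_comm]
    congr 1
    rw [← sum_coe_sort B g]
    exact (Equiv.sum_comp e (fun i : {i // i ∈ B} => g i)).symm
  let F : Fin (n + 1) → MvPolynomial (Fin (n + 1)) ℚ := fun j =>
    ∑ l : Fin (n + 1), (MvPolynomial.C (a (e l)) *
      (MvPolynomial.X l + MvPolynomial.C ((h (e l) : ℤ) : ℚ)) ^ (j.val + 1) -
      MvPolynomial.C (b (e l)) * MvPolynomial.X l ^ (j.val + 1)) +
    MvPolynomial.C (∑ i ∈ V \ B, (a i * ((x0 i : ℚ) + h i) ^ (j.val + 1) -
      b i * (x0 i : ℚ) ^ (j.val + 1)))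
  let φ : (ι → ℕ) → (Fin (n + 1) → ℚ) := fun x l => (x (e l) : ℚ)
  set A := (B2 n N V a b h u B).filter fun x => (fun i => if i ∈ B then 0 else x i) = y with hA
  have hoff : ∀ x ∈ A, ∀ i, i ∉ B → x i = x0 i := by
    intro x hx i hi
    have h1 := congrFun ((mem_filter.1 hx).2.trans hy0.symm) i
    simpa only [if_neg hi] using h1
  have hinj : Set.InjOn φ (A : Set (ι → ℕ)) := by
    intro x hx x' hx' hxx
    funext i
    by_cases hi : i ∈ B
    · have h1 := congrFun hxx (e.symm ⟨i, hi⟩)
      simp only [φ, Equiv.apply_symm_apply, Nat.cast_inj] at h1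
      exact h1
    · rw [hoff x hx i hi, hoff x' hx' i hi]
  rw [← card_image_of_injOn hinj]
  refine bezout (n + 1) (n + 1) F ?_ _ ?_ ?_
  · intro i j
    have hC : ∀ q : ℚ, (MvPolynomial.C q : MvPolynomial (Fin (n + 1)) ℚ).degreeOf i ≤ 0 := by
      intro q; rw [MvPolynomial.degreeOf_C]
    refine (MvPolynomial.degreeOf_add_le _ _ _).trans (max_le ?_ ((hC _).trans (by omega)))
    refine (MvPolynomial.degreeOf_sum_le _ _ _).trans (Finset.sup_le fun l _ => ?_)
    have hX : (MvPolynomial.X l : MvPolynomial (Fin (n + 1)) ℚ).degreeOf i ≤ 1 := by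
      rw [MvPolynomial.degreeOf_X]; split_ifs <;> omega
    refine (MvPolynomial.degreeOf_sub_le _ _ _).trans (max_le ?_ ?_)
    · refine (MvPolynomial.degreeOf_mul_le _ _ _).trans ?_
      have h1 := hC (a (e l))
      have h2 := MvPolynomial.degreeOf_pow_le i
        (MvPolynomial.X l + MvPolynomial.C ((h (e l) : ℤ) : ℚ)) (j.val + 1)
      have h3 : (MvPolynomial.X l + MvPolynomial.C ((h (e l) : ℤ) : ℚ) :
          MvPolynomial (Fin (n + 1)) ℚ).degreeOf i ≤ 1 :=
        (MvPolynomial.degreeOf_add_le _ _ _).trans (max_le hX ((hC _).trans (by omega)))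
      have h4 := Nat.mul_le_mul_left (j.val + 1) h3
      have h5 := j.2
      omega
    · refine (MvPolynomial.degreeOf_mul_le _ _ _).trans ?_
      have h1 := hC (b (e l))
      have h2 := MvPolynomial.degreeOf_pow_le i
        (MvPolynomial.X l : MvPolynomial (Fin (n + 1)) ℚ) (j.val + 1)
      have h4 := Nat.mul_le_mul_left (j.val + 1) hX
      have h5 := j.2
      omega
  · intro z hz j
    obtain ⟨x, hx, rfl⟩ := mem_image.1 hz
    have hx1 := (mem_filter.1 hx).1
    rw [B2, S2, mem_filter, mem_filter] at hx1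
    have h2 := hx1.1.2 j
    rw [hsum] at h2
    rw [← h2]
    simp only [F, map_add, map_sum, map_sub, map_mul, map_pow, MvPolynomial.eval_X,
      MvPolynomial.eval_C, φ]
    congr 1
    refine sum_congr rfl fun i hi => ?_
    rw [hoff x hx i (mem_sdiff.1 hi).2]
  · intro z hz t
    obtain ⟨x, hx, rfl⟩ := mem_image.1 hz
    have hx1 := (mem_filter.1 hx).1
    rw [B2, mem_filter] at hx1
    have hli := hx1.2.1
    have hli2 : LinearIndependent ℚ
        (fun l : Fin (n + 1) => col n (a (e l)) (b (e l)) (h (e l)) (x (e l))) := by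
      have h3 := hli.linearIndependent
      exact (linearIndependent_equiv' e rfl).2 h3
    have hspan := hli2.span_eq_top_of_card_eq_finrank' (by simp)
    have hmem : (fun j : Fin (n + 1) => t j / ((j.val : ℚ) + 1)) ∈
        Submodule.span ℚ (Set.range
          fun l : Fin (n + 1) => col n (a (e l)) (b (e l)) (h (e l)) (x (e l))) := by
      rw [hspan]; trivial
    rw [Submodule.mem_span_range_iff_exists_fun] at hmem
    obtain ⟨w, hw⟩ := hmem
    refine ⟨w, fun j => ?_⟩
    have h4 := congrFun hw j
    simp only [Finset.sum_apply, Pi.smul_apply, smul_eq_mul, col] at h4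
    have h5 : t j = ((j.val : ℚ) + 1) * (t j / ((j.val : ℚ) + 1)) := by
      field_simp
    rw [h5, ← h4, mul_sum]
    simp only [F, map_add, map_sum, Polynomial.coeff_add, Polynomial.finsetSum_coeff]
    rw [sum_congr rfl fun l _ => sub_term2 (φ x) w l _ _ _ j.val]
    have h6 : ∀ q : ℚ, (sub (φ x) w (MvPolynomial.C q)).coeff 1 = 0 := by
      intro q
      simp [sub]
    rw [sum_eq_zero (s := V \ B) (fun i _ => h6 _), add_zero]
    simp [φ]

theorem s2_count (n N : ℕ) (hN : 1 ≤ N) (V : Finset ι) (a b : ι → ℚ) (h : ι → ℤ) (u : ι → ℕ)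
    (hab : ∀ v ∈ V, (a v ≠ b v ∧ h v = 0) ∨ (a v = 1 ∧ b v = 1 ∧ h v ≠ 0))
    (v0 : ι) (hv0 : v0 ∈ V) (hv1 : a v0 ≠ b v0) :
    (S2 n N V a b h u).card ≤ 2 ^ (Fintype.card ι) * ((n + 1) ^ (Fintype.card ι) * N ^ n +
      ((n + 1) * (n + 1) + 1) ^ (n + 1) * N ^ (V.card - (n + 1))) := by
  classical
  have hsub : S2 n N V a b h u ⊆ V.powerset.biUnion fun B => B2 n N V a b h u B := by
    intro x hx
    obtain ⟨B, hBV, -, hspan, hli⟩ := exists_linearIndepOn_extension (K := ℚ)
      (v := fun v => col n (a v) (b v) (h v) (x v)) (linearIndepOn_empty ℚ _)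
      (Set.empty_subset (V : Set ι))
    rw [mem_biUnion]
    refine ⟨B.toFinset, ?_, ?_⟩
    · rw [mem_powerset, ← coe_subset, Set.coe_toFinset]
      exact hBV
    · rw [B2, mem_filter, Set.coe_toFinset]
      exact ⟨hx, hli, fun i hi => hspan ⟨i, hi, rfl⟩⟩
  calc (S2 n N V a b h u).card ≤ (V.powerset.biUnion fun B => B2 n N V a b h u B).card :=
        card_le_card hsub
    _ ≤ ∑ B ∈ V.powerset, (B2 n N V a b h u B).card := card_biUnion_le
    _ ≤ ∑ B ∈ V.powerset, ((n + 1) ^ (Fintype.card ι) * N ^ n +
      ((n + 1) * (n + 1) + 1) ^ (n + 1) * N ^ (V.card - (n + 1))) := by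
        apply sum_le_sum
        intro B hB
        rw [mem_powerset] at hB
        rcases lt_trichotomy B.card (n + 1) with h1 | h1 | h1
        · exact (deg_count2 n N hN V a b h u hab v0 hv0 hv1 B hB h1).trans (Nat.le_add_right _ _)
        · exact (nons_count2 n N V a b h u B hB h1).trans (Nat.le_add_left _ _)
        · have : B2 n N V a b h u B = ∅ := by
            rw [eq_empty_iff_forall_notMem]
            intro x hx
            rw [B2, mem_filter] at hx
            have h3 := hx.2.1.linearIndependent.fintype_card_le_finrank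
            simp at h3
            omega
          rw [this]; simp
    _ = 2 ^ V.card * ((n + 1) ^ (Fintype.card ι) * N ^ n +
      ((n + 1) * (n + 1) + 1) ^ (n + 1) * N ^ (V.card - (n + 1))) := by
        rw [sum_const, card_powerset, smul_eq_mul]
    _ ≤ _ := by
        apply Nat.mul_le_mul_right
        apply Nat.pow_le_pow_right (by norm_num)
        exact card_le_univ V

end count

end Pool.Agent.R470.VM
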